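import Pool.Agent.Helper32.KD2.Basic
/-! KD2-B2: second differences in `v`, boundedness and uniform continuity on `Q1` -/
namespace KD.II.B2
open Finset MeasureTheory

theorem isCompact_Q1 (d : ℕ) : IsCompact (Q1 d) := by
  have h : Q1 d = Set.Icc (-1 : ℝ) 0 ×ˢ (Metric.closedBall (0 : Vd d) 1 ×ˢ
      Metric.closedBall (0 : Vd d) 1) := by
    ext ⟨t, x, v⟩
    simp only [Q1, Set.mem_ofPred_eq, Set.mem_prod, Set.mem_Icc, mem_closedBall_zero_iff]
    tauto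
  rw [h]
  exact isCompact_Icc.prod ((isCompact_closedBall _ _).prod (isCompact_closedBall _ _))

theorem reg_sd {d : ℕ} {f ft : ℝ → Vd d → Vd d → ℝ} {fx fv : ℝ → Vd d → Vd d → (Vd d →L[ℝ] ℝ)}
    {fvv : ℝ → Vd d → Vd d → (Vd d →L[ℝ] Vd d →L[ℝ] ℝ)} {D : Set (ℝ × Vd d × Vd d)}
    (hR : Reg f ft fx fv fvv D) (hQ : Q1 d ⊆ D) :
    ∃ C : ℝ, 0 ≤ C ∧ ∀ t x v w w', -1 ≤ t → t ≤ 0 → ‖x‖ ≤ 1 → ‖v‖ + ‖w‖ ≤ 1 → ‖w'‖ ≤ ‖w‖ →
      |(f t x (v + w') + f t x (v - w')) - (f t x (v + w) + f t x (v - w))| ≤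
        C * ‖w - w'‖ * ‖w‖ := by
  obtain ⟨C₀, hC₀⟩ := IsCompact.exists_bound_of_continuousOn
    (E := Vd d →L[ℝ] Vd d →L[ℝ] ℝ) (f := fun p : ℝ × Vd d × Vd d => fvv p.1 p.2.1 p.2.2)
    (isCompact_Q1 d) (hR.cvv.mono hQ)
  refine ⟨2 * |C₀|, by positivity, fun t x v w w' ht1 ht0 hx hvw hw => ?_⟩
  have hmem : ∀ a : Vd d, ‖a‖ ≤ 1 → (t, x, a) ∈ Q1 d := fun a ha => ⟨ht1, ht0, hx, ha⟩
  have hfv : ∀ a b : Vd d, ‖a‖ ≤ 1 → ‖b‖ ≤ 1 → ‖fv t x b - fv t x a‖ ≤ |C₀| * ‖b - a‖ := by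
    intro a b ha hb
    refine (convex_closedBall (0 : Vd d) 1).norm_image_sub_le_of_norm_hasFDerivWithin_le
      (f := fun u => fv t x u) (f' := fun u => fvv t x u) ?_ ?_
      (mem_closedBall_zero_iff.2 ha) (mem_closedBall_zero_iff.2 hb)
    · intro u hu
      exact (hR.dvv (t, x, u) (hQ (hmem u (mem_closedBall_zero_iff.1 hu)))).hasFDerivWithinAt
    · intro u hu
      exact (hC₀ (t, x, u) (hmem u (mem_closedBall_zero_iff.1 hu))).trans (le_abs_self _)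
  have hball : ∀ u : Vd d, ‖u‖ ≤ ‖w‖ → ‖v + u‖ ≤ 1 ∧ ‖v - u‖ ≤ 1 := by
    intro u hu
    exact ⟨(norm_add_le _ _).trans (by linarith), (norm_sub_le _ _).trans (by linarith)⟩
  have key := (convex_closedBall (0 : Vd d) ‖w‖).norm_image_sub_le_of_norm_hasFDerivWithin_le
    (f := fun u => f t x (v + u) + f t x (v - u))
    (f' := fun u => fv t x (v + u) - fv t x (v - u)) (C := 2 * |C₀| * ‖w‖) (x := w) (y := w')
    (by
      intro u hu
      obtain ⟨h1, h2⟩ := hball u (mem_closedBall_zero_iff.1 hu)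
      have d1 : HasFDerivAt (fun u => f t x (v + u)) (fv t x (v + u)) u := by
        have h := hR.dv (t, x, v + u) (hQ (hmem _ h1))
        have h' := h.comp u ((hasFDerivAt_id u).const_add v)
        rw [ContinuousLinearMap.comp_id] at h'
        exact h'
      have d2 : HasFDerivAt (fun u => f t x (v - u)) (-(fv t x (v - u))) u := by
        have h := hR.dv (t, x, v - u) (hQ (hmem _ h2))
        have h' := h.comp u ((hasFDerivAt_id u).const_sub v)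
        rw [ContinuousLinearMap.comp_neg, ContinuousLinearMap.comp_id] at h'
        exact h'
      have h3 := d1.add d2
      rw [← sub_eq_add_neg] at h3
      exact h3.hasFDerivWithinAt)
    (by
      intro u hu
      have hu' := mem_closedBall_zero_iff.1 hu
      obtain ⟨h1, h2⟩ := hball u hu'
      refine (hfv _ _ h2 h1).trans ?_
      have h3 : ‖v + u - (v - u)‖ ≤ 2 * ‖w‖ := by
        have : v + u - (v - u) = u + u := by abel
        rw [this]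
        exact (norm_add_le _ _).trans (by linarith)
      calc |C₀| * ‖v + u - (v - u)‖ ≤ |C₀| * (2 * ‖w‖) :=
            mul_le_mul_of_nonneg_left h3 (abs_nonneg _)
        _ = 2 * |C₀| * ‖w‖ := by ring)
    (mem_closedBall_zero_iff.2 le_rfl) (mem_closedBall_zero_iff.2 hw)
  rw [Real.norm_eq_abs] at key
  refine key.trans (le_of_eq ?_)
  rw [norm_sub_rev w' w]
  ring

theorem reg_uc {d : ℕ} {f ft : ℝ → Vd d → Vd d → ℝ} {fx fv : ℝ → Vd d → Vd d → (Vd d →L[ℝ] ℝ)}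
    {fvv : ℝ → Vd d → Vd d → (Vd d →L[ℝ] Vd d →L[ℝ] ℝ)} {D : Set (ℝ × Vd d × Vd d)}
    (hR : Reg f ft fx fv fvv D) (hQ : Q1 d ⊆ D) :
    ∀ e : ℝ, 0 < e → ∃ b : ℝ, 0 < b ∧ ∀ t x v t' x' v', (t, x, v) ∈ Q1 d →
      (t', x', v') ∈ Q1 d → |t - t'| ≤ b → ‖x - x'‖ ≤ b → ‖v - v'‖ ≤ b →
      |f t x v - f t' x' v'| ≤ e := by
  intro e he
  have h := (isCompact_Q1 d).uniformContinuousOn_of_continuous (hR.cf.mono hQ)
  obtain ⟨δ, hδ, h⟩ := Metric.uniformContinuousOn_iff.1 h e he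
  refine ⟨δ / 2, by positivity, fun t x v t' x' v' hp hp' ht hx hv => ?_⟩
  have h1 := h (t, x, v) hp (t', x', v') hp' (by
    rw [Prod.dist_eq, Prod.dist_eq, Real.dist_eq, dist_eq_norm, dist_eq_norm]
    exact max_lt (by linarith) (max_lt (by linarith) (by linarith)))
  rw [Real.dist_eq] at h1
  exact h1.le

end KD.II.B2
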